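import Pool.Agent.H25.BDistA
import Pool.Agent.H25.BDistDefs

namespace Pool.Agent.Results.MP_591151_lc.Yes
open Function Cardinal Pool.Agent.H25.BDist Filter

abbrev X := ℕ → ZMod 2
abbrev Γ := ℕ →₀ ZMod 2

theorem two (a : ZMod 2) : a + a = 0 := by revert a; decide

theorem twoΓ (a : Γ) : a + a = 0 := by ext n; simp [two]

noncomputable def en : ℕ → Finset Γ := (exists_surjective_nat (Finset Γ)).choose

theorem en_surj : Surjective en := (exists_surjective_nat (Finset Γ)).choose_spec

/-- The connection set. -/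
def S (γ : Γ) : Prop :=
  ∃ n, γ n = 1 ∧ (∀ m, n < m → γ m = 0) ∧ γ + Finsupp.single n 1 ∈ en (Nat.unpair n).1

def H (a b : Γ) : Prop := S (a + b)

theorem H_symm (a b : Γ) (h : H a b) : H b a := by unfold H at *; rwa [add_comm]

theorem H_irrefl (a : Γ) : ¬ H a a := by
  rintro ⟨n, h, -⟩
  rw [twoΓ] at h
  simp at h

theorem extH (U W : Set Γ) (hW : W.Finite) (t : Γ) (N : ℕ) :
    ∃ z : Γ, (∀ m < N, z m = t m) ∧ z ∉ W ∧ ∀ w ∈ W, (H z w ↔ w ∈ U) := by
  classical
  have hU : ((fun w => t + w) '' (U ∩ W)).Finite := (hW.subset Set.inter_subset_right).image _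
  obtain ⟨a, ha⟩ := en_surj hU.toFinset
  obtain ⟨M, hM⟩ : ∃ M : ℕ, ∀ w ∈ W, ∀ m, M ≤ m → (t + w) m = 0 := by
    obtain ⟨M, hM⟩ := (hW.biUnion fun w _ => (t + w).support.finite_toSet).bddAbove
    refine ⟨M + 1, fun w hw m hm => ?_⟩
    by_contra h
    have := hM (Set.mem_biUnion hw (Finsupp.mem_support_iff.2 h))
    omega
  set n := Nat.pair a (max M N) with hn
  have hn1 : max M N ≤ n := Nat.right_le_pair _ _
  have hMn : M ≤ n := le_trans (le_max_left _ _) hn1
  have hNn : N ≤ n := le_trans (le_max_right _ _) hn1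
  have hun : (Nat.unpair n).1 = a := by simp [hn]
  have e : ∀ w, t + Finsupp.single n 1 + w = (t + w) + Finsupp.single n 1 := fun w => by abel
  have top : ∀ w ∈ W, (t + Finsupp.single n 1 + w : Γ) n = 1 := by
    intro w hw
    rw [e, Finsupp.add_apply, hM w hw n hMn]
    simp
  refine ⟨t + Finsupp.single n 1, fun m hm => ?_, fun h => ?_, fun w hw => ?_⟩
  · have : m ≠ n := by omega
    simp [Finsupp.single_eq_of_ne this]
  · have := top _ h
    rw [twoΓ] at this
    simp at this
  · have e2 : t + Finsupp.single n 1 + w + Finsupp.single n 1 = t + w := by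
      rw [e, add_assoc, twoΓ, add_zero]
    have hz : ∀ m, n < m → (t + Finsupp.single n 1 + w : Γ) m = 0 := by
      intro m hm
      have : m ≠ n := by omega
      rw [e, Finsupp.add_apply, hM w hw m (by omega), Finsupp.single_eq_of_ne this, add_zero]
    constructor
    · rintro ⟨k, k1, k2, k3⟩
      have hk : k = n := by
        rcases lt_trichotomy k n with h | h | h
        · have := k2 n h
          rw [top w hw] at this
          simp at this
        · exact h
        · rw [hz k h] at k1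
          simp at k1
      rw [hk, e2, hun, ha, Set.Finite.mem_toFinset] at k3
      obtain ⟨u, hu, hu2⟩ := k3
      rw [← add_left_cancel hu2]
      exact hu.1
    · intro hu
      refine ⟨n, top w hw, hz, ?_⟩
      rw [e2, hun, ha, Set.Finite.mem_toFinset]
      exact ⟨w, ⟨hu, hw⟩, rfl⟩

def io (r : X) (γ : Γ) : X := r + γ

theorem io_inj (r : X) : Injective (io r) := fun a b h =>
  DFunLike.coe_injective (add_left_cancel h)

theorem io_io (r : X) (a b : Γ) : io (io r a) b = io r (a + b) := by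
  simp [io, add_assoc]

theorem io_zero (r : X) : io r 0 = r := by simp [io]

def Adj (x y : X) : Prop := ∃ γ : Γ, S γ ∧ y = io x γ

theorem adj_io (r : X) (a b : Γ) : Adj (io r a) (io r b) ↔ H a b := by
  constructor
  · rintro ⟨γ, h1, h2⟩
    rw [io_io] at h2
    have := io_inj r h2
    unfold H
    rwa [this, ← add_assoc, twoΓ, zero_add]
  · intro h
    exact ⟨a + b, h, by rw [io_io, ← add_assoc, twoΓ, zero_add]⟩

theorem adj_symm (x y : X) (h : Adj x y) : Adj y x := by
  obtain ⟨γ, h1, rfl⟩ := h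
  exact ⟨γ, h1, by rw [io_io, twoΓ, io_zero]⟩

def G : BorelGraph X where
  Adj := Adj
  symm := adj_symm
  irrefl x h := by
    have := (adj_io x 0 0).1 (by rwa [io_zero])
    exact H_irrefl 0 this
  meas := by
    have : {p : X × X | Adj p.1 p.2} = ⋃ γ : Γ, ⋃ _ : S γ, {p : X × X | p.2 = io p.1 γ} := by
      ext p
      simp [Adj]
    rw [this]
    refine MeasurableSet.iUnion fun γ => MeasurableSet.iUnion fun _ => ?_
    refine IsClosed.measurableSet (isClosed_eq continuous_snd ?_)
    unfold io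
    fun_prop

def E : Setoid X where
  r x y := ∃ γ : Γ, y = io x γ
  iseqv := ⟨fun x => ⟨0, (io_zero x).symm⟩,
    by rintro x _ ⟨γ, rfl⟩; exact ⟨γ, by rw [io_io, twoΓ, io_zero]⟩,
    by rintro x _ _ ⟨γ, rfl⟩ ⟨δ, rfl⟩; exact ⟨γ + δ, by rw [io_io]⟩⟩

theorem D_fin : G.D < ℵ₀ := by
  let rep : X → X := fun x => (Quotient.mk E x).out
  have hrep : ∀ x y, E x y → rep x = rep y := fun x y h => by
    simp only [rep, Quotient.sound h]
  have h1 : ∀ x, ∃ γ, x = io (rep x) γ := fun x => Quotient.mk_out (s := E) x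
  obtain ⟨c, hc⟩ := exists_rigid (0 : Γ) Adj H H_symm
    (fun U W hW => by
      obtain ⟨z, -, h⟩ := extH U W hW 0 0
      exact ⟨z, h⟩)
    io io_inj adj_io rep h1
    (fun x γ => by
      rw [← hrep (rep x) _ ⟨γ, rfl⟩]
      exact hrep _ _ (h1 x))
    (fun x y h => by
      obtain ⟨γ, -, h⟩ := h
      exact hrep _ _ ⟨γ, h⟩)
    (fun x k => x k = 1)
    (fun x y h => by
      funext k
      have h2 : x k = 1 ↔ y k = 1 := by rw [show (x k = 1) = (y k = 1) from congrFun h k]
      revert h2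
      generalize x k = a
      generalize y k = b
      revert a b
      decide)
  refine lt_of_le_of_lt (csInf_le' ⟨_, c, rfl, fun φ hφ hne => ?_⟩) (Cardinal.lt_aleph0_of_finite _)
  by_contra h
  push Not at h
  exact hne (Equiv.ext (hc φ hφ fun a => (h a).symm))

theorem not_dist {I : Type} [MeasurableSpace I] [MeasurableSingletonClass I] [Countable I]
    (c : X → I) (hc : Measurable c) : ¬ G.Distinguishing c := by
  classical
  have hB : ∀ i : I, ∃ u : Set X, IsOpen u ∧ (c ⁻¹' {i}) =ᶠ[residual X] u := fun i =>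
    (hc (measurableSet_singleton i)).baireMeasurableSet.residualEq_isOpen
  choose u hu hu2 using hB
  have res : ∀ᶠ x in residual X, ∀ γ : Γ, ∀ i : I, (c (io x γ) = i ↔ io x γ ∈ u i) := by
    rw [eventually_countable_forall]
    intro γ
    rw [eventually_countable_forall]
    intro i
    have ht : Tendsto (fun x : X => io x γ) (residual X) (residual X) :=
      tendsto_residual_of_isOpenMap (continuous_add_right _) (isOpenMap_add_right _)
    filter_upwards [ht.eventually (hu2 i)] with x hx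
    exact Iff.of_eq hx
  obtain ⟨x, hx⟩ := (dense_of_mem_residual res).nonempty
  obtain ⟨φ, h0, h1, h2⟩ := exists_aut (adj := H) (c := fun γ => c (io x γ)) H_symm H_irrefl
    (fun U W y hW => by
      have hy := (hx y _).1 rfl
      obtain ⟨F, v, hv1, hv2⟩ := isOpen_pi_iff.1 (hu _) _ hy
      obtain ⟨N, hN⟩ := F.finite_toSet.bddAbove
      obtain ⟨z, z1, z2⟩ := extH U W hW y (N + 1)
      refine ⟨z, (hx z _).2 (hv2 fun m hm => ?_), z2⟩
      have : io x z m = io x y m := by
        simp [io, z1 m (Nat.lt_succ_of_le (hN hm))]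
      rw [this]
      exact (hv1 m hm).2) 0
  let ι : Γ ↪ X := ⟨io x, io_inj x⟩
  have a1 : ∀ γ, Equiv.Perm.viaEmbedding φ ι (io x γ) = io x (φ γ) := fun γ => Equiv.Perm.viaEmbedding_apply φ ι γ
  have a2 : ∀ y, y ∉ Set.range (io x) → Equiv.Perm.viaEmbedding φ ι y = y := fun y hy =>
    Equiv.Perm.viaEmbedding_apply_of_notMem φ ι y hy
  have a3 : ∀ γ y, Adj (io x γ) y → y ∈ Set.range (io x) := by
    rintro γ _ ⟨δ, -, rfl⟩
    exact ⟨γ + δ, (io_io _ _ _).symm⟩
  intro hd
  refine (hd (Equiv.Perm.viaEmbedding φ ι) (fun a b => ?_) (fun h => ?_)).elim fun y hy => ?_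
  rotate_right
  · by_cases hm : y ∈ Set.range (io x)
    · obtain ⟨γ, rfl⟩ := hm
      rw [a1] at hy
      exact hy (h1 γ).symm
    · rw [a2 y hm] at hy
      exact hy rfl
  · change Adj a b ↔ Adj _ _
    by_cases ha : a ∈ Set.range (io x) <;> by_cases hb : b ∈ Set.range (io x)
    · obtain ⟨γ, rfl⟩ := ha
      obtain ⟨δ, rfl⟩ := hb
      rw [a1, a1, adj_io, adj_io, h2]
    · obtain ⟨γ, rfl⟩ := ha
      rw [a1, a2 b hb]
      exact ⟨fun h => (hb (a3 _ _ h)).elim, fun h => (hb (a3 _ _ h)).elim⟩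
    · obtain ⟨δ, rfl⟩ := hb
      rw [a1, a2 a ha]
      exact ⟨fun h => (ha (a3 _ _ (adj_symm _ _ h))).elim,
        fun h => (ha (a3 _ _ (adj_symm _ _ h))).elim⟩
    · rw [a2 a ha, a2 b hb]
  · have := a1 0
    rw [h] at this
    exact h0 (io_inj x this).symm

theorem card_X : #X = 𝔠 := by
  simp [X]

theorem DB_eq : G.DB = 𝔠 := by
  have mem : 𝔠 ∈ {κ | ∃ (I : Type) (_ : MeasurableSpace I) (_ : StandardBorelSpace I) (c : X → I),
      #I = κ ∧ Measurable c ∧ G.Distinguishing c} := by
    refine ⟨X, inferInstance, inferInstance, id, card_X, measurable_id, fun φ _ hne => ?_⟩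
    by_contra h
    push Not at h
    exact hne (Equiv.ext fun a => (h a).symm)
  refine le_antisymm (csInf_le' mem) (le_csInf ⟨_, mem⟩ ?_)
  rintro κ ⟨I, _, _, c, rfl, hc, hd⟩
  have hI : ¬ Countable I := fun _ => not_dist c hc hd
  rw [Cardinal.mk_congr (PolishSpace.measurableEquivNatBoolOfNotCountable hI).toEquiv]
  simp

/-- There is a Borel graph with finite distinguishing number and Borel distinguishing
number continuum. -/
theorem result : ∃ (Y : Type) (_ : MeasurableSpace Y) (_ : StandardBorelSpace Y)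
    (Gr : BorelGraph Y), Gr.D < ℵ₀ ∧ Gr.DB = 2 ^ ℵ₀ :=
  ⟨X, inferInstance, inferInstance, G, D_fin, by rw [DB_eq, Cardinal.two_power_aleph0]⟩

end Pool.Agent.Results.MP_591151_lc.Yes
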